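import Pool.Agent.Y192.FN.Sp
import Pool.Agent.Y899.FN.FN2

/-!
Maps from the projective line without at most two points lie in the special set or are constant
(helper954; stronger form of helper899's Pool/Agent/Y899/FN/FN2.lean).
-/

set_option autoImplicit false
set_option linter.unusedSectionVars false

namespace Pool.Agent.Y954.FN

open MvPolynomial FF Pool.Agent.W603.LV Pool.Agent.W603.PV Pool.Agent.W619.PQ
open Pool.Agent.Y192.FN (NDat Sol NMap NGm NWH InSp St_nsmallp)
open Pool.Agent.TH143.LG (ge_aeval poly_of_reg laurent)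
open Pool.Agent.Y77.FG
open Pool.Agent.Y899.FN (aeval_eval sol_scale)

theorem wh_aeval {σ : Type} {w : σ → ℕ} {B : MvPolynomial σ ℂ} {D : ℕ}
    (hB : IsWeightedHomogeneous w B D) {M : Type} [Field M] [Algebra ℂ M] (x : σ → M) (l : M) :
    aeval (fun i => l ^ w i * x i) B = l ^ D * aeval x B := by
  rw [aeval_def, aeval_def, eval₂_eq, eval₂_eq, Finset.mul_sum]
  refine Finset.sum_congr rfl fun d hd => ?_
  have h1 := hB (mem_support_iff.1 hd)
  have h2 : ∏ i ∈ d.support, (l ^ w i * x i) ^ d i = l ^ D * ∏ i ∈ d.support, x i ^ d i := by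
    have h3 : ∀ i ∈ d.support, (l ^ w i * x i) ^ d i = l ^ (d i * w i) * x i ^ d i := by
      intro i _
      rw [mul_pow, ← pow_mul, mul_comm (w i)]
    have h4 : ∑ i ∈ d.support, d i * w i = D := by
      rw [← h1, Finsupp.weight_apply, Finsupp.sum]
      first | done | rfl
    rw [Finset.prod_congr rfl h3, Finset.prod_mul_distrib, Finset.prod_pow_eq_pow_sum, h4]
  rw [h2]
  ring

theorem van {ι κ : Type} {p : ι → Polynomial ℂ} {s : κ → Polynomial ℂ} (B : MvPolynomial (ι ⊕ κ) ℂ)
    (h : ∀ z : ℂ, z ≠ 0 →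
      eval (Sum.elim (fun i => (p i).eval z) (fun j => (s j).eval z)) B = 0) :
    (aeval (Sum.elim p s) B : Polynomial ℂ) = 0 := by
  refine Polynomial.eq_of_infinite_eval_eq _ _
    ((Set.infinite_of_finite_compl (s := {0}ᶜ) ?_).mono fun z hz => ?_)
  · rw [compl_compl]
    exact Set.finite_singleton _
  · change Polynomial.eval z _ = Polynomial.eval z _
    rw [Polynomial.eval_zero, ← h z hz]
    have h1 : Polynomial.eval z (aeval (Sum.elim p s) B : Polynomial ℂ) =
        aeval (fun i => Polynomial.eval z (Sum.elim p s i)) B := by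
      have h2 := comp_aeval_apply (f := Sum.elim p s)
        (Polynomial.aeval z : Polynomial ℂ →ₐ[ℂ] ℂ) B
      simpa only [Polynomial.coe_aeval_eq_eval] using h2
    rw [h1, ← coe_aeval_eq_eval]
    have h3 : (fun i => Polynomial.eval z (Sum.elim p s i)) =
        Sum.elim (fun i => (p i).eval z) (fun j => (s j).eval z) := by
      funext i
      cases i <;> rfl
    rw [h3]
    rfl

theorem t_nsmallp : St_nsmallp := by
  intro n r X m hm he M _ _ _ S0 u v hc0 hcS0 hmap0
  -- a nonempty exceptional set
  obtain ⟨S, hS, hcS, hmap⟩ : ∃ S : Finset (Place ℂ M), S.Nonempty ∧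
      canDeg ℂ M + S.card ≤ 0 ∧ NMap X m S u v := by
    by_cases h : S0.Nonempty
    · exact ⟨S0, h, hcS0, hmap0⟩
    · obtain ⟨T0, hT0⟩ := Pool.Agent.TH143.GE.rational_of_neg (k := ℂ) (K := M) hc0
      obtain ⟨P, -⟩ := zero_unique hT0
      refine ⟨{P}, Finset.singleton_nonempty P, ?_, ?_⟩
      · rw [Finset.card_singleton]
        push_cast
        omega
      · refine ⟨hmap0.ne, hmap0.sol, fun Q _ => hmap0.off Q ?_⟩
        rw [Finset.not_nonempty_iff_eq_empty.1 h]
        exact Finset.notMem_empty _
  obtain ⟨T, hT, hlaur⟩ := laurent hS hcS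
  have htr := transcendental_of_top hT
  have hinj : ∀ g : Polynomial ℂ, Polynomial.aeval T g = 0 → g = 0 := fun g hg =>
    transcendental_iff.1 htr g hg
  obtain ⟨i0, hi0⟩ := hmap.ne
  obtain ⟨l, p, hl, hp, hcop⟩ := coprimeRep hT u hi0
  -- the places over the multiplicative group are not exceptional
  have hPS : ∀ z : ℂ, z ≠ 0 → ∀ P : Place ℂ M, P.ord (T - algebraMap ℂ M z) = 1 → P ∉ S := by
    intro z hz P hP hPS
    have hne : T - algebraMap ℂ M z ≠ 0 := sub_const_ne htr z
    obtain ⟨P', hP', huniq⟩ := zero_unique (top_sub hT z)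
    obtain ⟨k, q, hq⟩ := hlaur (T - algebraMap ℂ M z)⁻¹ (by
      intro Q hQ
      rw [Q.ord_inv] at hQ
      have h1 := huniq Q (by omega)
      have h2 := huniq P (by omega)
      rw [h1, ← h2]
      exact hPS)
    have h1 : Polynomial.aeval T (Polynomial.X ^ k - (Polynomial.X - Polynomial.C z) * q) = 0 := by
      rw [map_sub, map_pow, Polynomial.aeval_X, map_mul, map_sub, Polynomial.aeval_X,
        Polynomial.aeval_C, ← hq, mul_inv_cancel_left₀ hne, sub_self]
    have h2 := congrArg (Polynomial.eval z) (hinj _ h1)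
    rw [Polynomial.eval_sub, Polynomial.eval_pow, Polynomial.eval_X, Polynomial.eval_mul,
      Polynomial.eval_sub, Polynomial.eval_X, Polynomial.eval_C, sub_self, zero_mul, sub_zero,
      Polynomial.eval_zero] at h2
    exact hz (eq_zero_of_pow_eq_zero h2)
  -- the scaled solution
  have hsol := sol_scale he hmap.sol hl
  obtain ⟨P0, hP0, hP0u⟩ := pole_unique hT
  have hT0 : T ≠ 0 := by
    rintro rfl
    exact htr isAlgebraic_zero
  have hup : (fun i => (l * u i) ^ m) = fun i => Polynomial.aeval T (p i ^ m) := by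
    funext i
    rw [hp i, map_pow]
  have hs : ∀ j, ∃ s : Polynomial ℂ, l ^ (m * X.d j / X.e j) * v j = Polynomial.aeval T s := by
    intro j
    refine poly_of_reg hT (P0 := P0) (by omega) fun P hP => ?_
    have hreg : Ge P 0 T := by
      right
      by_contra hcon
      exact hP (hP0u P (by omega))
    have h1 : Ge P 0 ((l ^ (m * X.d j / X.e j) * v j) ^ X.e j) := by
      rw [hsol.eqn j, hup, ← aeval_poly]
      exact ge_aeval hreg _
    by_cases h0 : l ^ (m * X.d j / X.e j) * v j = 0
    · rw [h0, P.ord_zero]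
    · have h2 := h1.resolve_left (pow_ne_zero _ h0)
      rw [P.ord_pow] at h2
      have h3 : (0 : ℤ) < X.e j := by exact_mod_cast X.he j
      by_contra h4
      have h5 : P.ord (l ^ (m * X.d j / X.e j) * v j) ≤ -1 := by omega
      have h6 : (X.e j : ℤ) * P.ord (l ^ (m * X.d j / X.e j) * v j) ≤ X.e j * (-1) :=
        mul_le_mul_of_nonneg_left h5 h3.le
      omega
  choose s hs using hs
  -- the points
  have hpt : ∀ z : ℂ, z ≠ 0 → Sol X m (fun i => (p i).eval z) (fun j => (s j).eval z) := by
    intro z hz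
    refine ⟨fun f hf => ?_, fun j => ?_, ?_⟩
    · have h3 := hsol.mem f hf
      rw [hup, ← aeval_poly] at h3
      have h4 := congrArg (Polynomial.eval z) (hinj _ h3)
      rw [Polynomial.eval_zero] at h4
      rw [aeval_eval]
      exact h4
    · have h3 := hsol.eqn j
      rw [hup, ← aeval_poly, hs j, ← map_pow] at h3
      have h5 : s j ^ X.e j - aeval (fun i => p i ^ m) (X.F j) = 0 := by
        refine hinj _ ?_
        rw [map_sub, h3, sub_self]
      have h4 := congrArg (Polynomial.eval z) h5
      rw [Polynomial.eval_sub, Polynomial.eval_pow, Polynomial.eval_zero, sub_eq_zero] at h4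
      rw [aeval_eval]
      exact h4
    · obtain ⟨P, hP, -⟩ := zero_unique (top_sub hT z)
      have hPnS := hPS z hz P hP
      have h1 := hmap.off P hPnS
      rw [pord_eq hP hl hp (hcop z)] at h1
      have h2 : Polynomial.aeval T (aeval (fun i => p i ^ m) X.G : Polynomial ℂ) =
          (l ^ m) ^ X.q * aeval (fun i => u i ^ m) X.G := by
        rw [aeval_poly, ← aeval_h X.hG]
        congr 1
        have h3 : (fun i => Polynomial.aeval T (p i ^ m)) = fun i => l ^ m * u i ^ m := by
          funext i
          rw [map_pow, ← hp i, mul_pow]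
        rw [h3]
      have h3 : Polynomial.aeval T (aeval (fun i => p i ^ m) X.G : Polynomial ℂ) ≠ 0 := by
        rw [h2]
        exact mul_ne_zero (pow_ne_zero _ (pow_ne_zero _ hl)) hmap.sol.G_ne
      intro h4
      rw [aeval_eval] at h4
      have h6 := ord_of_root hP h3 h4
      rw [h2, P.ord_mul (pow_ne_zero _ (pow_ne_zero _ hl)) hmap.sol.G_ne, P.ord_pow, P.ord_pow,
        h1] at h6
      have h7 : (X.q : ℤ) * (m * P.ord l) + m * X.q * (- P.ord l) = 0 := by ring
      omega
  by_cases hcst : ∃ z z' : ℂ, z ≠ 0 ∧ z' ≠ 0 ∧ ∃ i j,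
      (p i).eval z * (p j).eval z' ≠ (p j).eval z * (p i).eval z'
  · right
    intro B D hB hvan
    have hgm : NGm X m p s := ⟨fun z _ => hcop z, hpt, hcst⟩
    have h0 := van B (hvan p s hgm)
    have h1 := congrArg (Polynomial.aeval T) h0
    rw [map_zero] at h1
    have h2 : Polynomial.aeval T (aeval (Sum.elim p s) B : Polynomial ℂ) =
        aeval (fun i => Polynomial.aeval T (Sum.elim p s i)) B :=
      comp_aeval_apply (f := Sum.elim p s) (Polynomial.aeval T : Polynomial ℂ →ₐ[ℂ] M) B
    have h4 : (fun i => Polynomial.aeval T (Sum.elim p s i)) =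
        fun i => l ^ (Sum.elim (fun _ : Fin (n + 1) => 1) (fun j : Fin r => m * X.d j / X.e j) i) *
          Sum.elim u v i := by
      funext i
      rcases i with i | j
      · simp only [Sum.elim_inl, pow_one]
        exact (hp i).symm
      · simp only [Sum.elim_inr]
        exact (hs j).symm
    rw [h2, h4, wh_aeval hB] at h1
    exact (mul_eq_zero.1 h1).resolve_left (pow_ne_zero _ hl)
  · -- a constant map
    left
    push Not at hcst
    obtain ⟨i1, hi1⟩ := hcop 1
    have h1 : ∀ i, p i * Polynomial.C ((p i1).eval 1) = p i1 * Polynomial.C ((p i).eval 1) := by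
      intro i
      refine Polynomial.eq_of_infinite_eval_eq _ _
        ((Set.infinite_of_finite_compl (s := {0}ᶜ) ?_).mono fun z hz => ?_)
      · rw [compl_compl]
        exact Set.finite_singleton _
      · change Polynomial.eval z _ = Polynomial.eval z _
        rw [Polynomial.eval_mul, Polynomial.eval_mul, Polynomial.eval_C, Polynomial.eval_C]
        exact hcst z 1 hz one_ne_zero i i1
    have h2 : ∀ i, u i * algebraMap ℂ M ((p i1).eval 1) =
        u i1 * algebraMap ℂ M ((p i).eval 1) := by
      intro i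
      have h3 := congrArg (Polynomial.aeval T) (h1 i)
      rw [map_mul, map_mul, Polynomial.aeval_C, Polynomial.aeval_C, ← hp, ← hp, mul_assoc,
        mul_assoc] at h3
      exact mul_left_cancel₀ hl h3
    have h4 : algebraMap ℂ M ((p i1).eval 1) ≠ 0 := by rwa [Ne, map_eq_zero]
    have hui1 : u i1 ≠ 0 := by
      intro h0
      have h3 := h2 i0
      rw [h0, zero_mul] at h3
      exact mul_ne_zero hi0 h4 h3
    have h5 : ∀ P : Place ℂ M, pord P u = P.ord (u i1) := by
      intro P
      obtain ⟨j, hj, h6⟩ := exists_pord P (f := u) ⟨i1, hui1⟩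
      have h7 : algebraMap ℂ M ((p j).eval 1) ≠ 0 := by
        intro h0
        have h3 := h2 j
        rw [h0, mul_zero] at h3
        exact mul_ne_zero hj h4 h3
      have h8 := congrArg P.ord (h2 j)
      have h9 : (p j).eval 1 ≠ 0 := by rwa [Ne, map_eq_zero] at h7
      rw [P.ord_mul hj h4, P.ord_mul hui1 h7, P.ord_const hi1, P.ord_const h9] at h8
      omega
    unfold pht
    rw [finsum_congr h5, sum_ord (k := ℂ) (u i1), neg_zero]

end Pool.Agent.Y954.FN
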